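import Pool.Agent.H7.KM.Defs

set_option autoImplicit false

open MeasureTheory Set Filter Topology
open scoped ENNReal NNReal

namespace Pool.Agent.H7.KM

section basic

variable {E0 E1 : Type*} [NormedAddCommGroup E0] [NormedSpace ℂ E0]
    [NormedAddCommGroup E1] [NormedSpace ℂ E1] (ι : E1 →L[ℂ] E0)

lemma bdd {t : ℝ} (ht : 0 ≤ t) (a : E0) : BddBelow (range fun x : E1 => ‖a - ι x‖ + t * ‖x‖) :=
  ⟨0, by rintro _ ⟨x, rfl⟩; positivity⟩

lemma K_le {t : ℝ} (ht : 0 ≤ t) (a : E0) (x : E1) : K ι t a ≤ ‖a - ι x‖ + t * ‖x‖ :=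
  ciInf_le (bdd ι ht a) x

lemma K_nonneg {t : ℝ} (ht : 0 ≤ t) (a : E0) : 0 ≤ K ι t a :=
  le_ciInf fun x => by positivity

lemma K_le_norm {t : ℝ} (ht : 0 ≤ t) (a : E0) : K ι t a ≤ ‖a‖ := by
  simpa using K_le ι ht a 0

lemma exists_lt {t : ℝ} (a : E0) {ε : ℝ} (hε : 0 < ε) :
    ∃ x : E1, ‖a - ι x‖ + t * ‖x‖ < K ι t a + ε :=
  exists_lt_of_ciInf_lt (lt_add_of_pos_right _ hε)

lemma K_add {t : ℝ} (ht : 0 ≤ t) (a b : E0) : K ι t (a + b) ≤ K ι t a + K ι t b := by
  apply le_of_forall_pos_le_add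
  intro ε hε
  obtain ⟨x, hx⟩ := exists_lt ι (t := t) a (half_pos hε)
  obtain ⟨y, hy⟩ := exists_lt ι (t := t) b (half_pos hε)
  have h1 := K_le ι ht (a + b) (x + y)
  have h2 : ‖a + b - ι (x + y)‖ ≤ ‖a - ι x‖ + ‖b - ι y‖ := by
    rw [map_add]
    have : a + b - (ι x + ι y) = (a - ι x) + (b - ι y) := by abel
    rw [this]
    exact norm_add_le _ _
  have h3 : t * ‖x + y‖ ≤ t * ‖x‖ + t * ‖y‖ := by
    rw [← mul_add]
    exact mul_le_mul_of_nonneg_left (norm_add_le _ _) ht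
  linarith

lemma K_neg {t : ℝ} (ht : 0 ≤ t) (a : E0) : K ι t (-a) ≤ K ι t a := by
  refine le_ciInf fun x => ?_
  have h1 := K_le ι ht (-a) (-x)
  rw [map_neg, norm_neg] at h1
  have : -a - -ι x = -(a - ι x) := by abel
  rw [this, norm_neg] at h1
  exact h1

lemma K_sub {t : ℝ} (ht : 0 ≤ t) (a b : E0) : K ι t (a - b) ≤ K ι t a + K ι t b := by
  rw [sub_eq_add_neg]
  exact (K_add ι ht a (-b)).trans (add_le_add le_rfl (K_neg ι ht b))

lemma K_mono (a : E0) {s t : ℝ} (hs : 0 ≤ s) (hst : s ≤ t) : K ι s a ≤ K ι t a := by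
  refine le_ciInf fun x => ?_
  have h1 := K_le ι hs a x
  have : s * ‖x‖ ≤ t * ‖x‖ := mul_le_mul_of_nonneg_right hst (norm_nonneg _)
  linarith

lemma norm_le_K (a : E0) : ‖a‖ ≤ (1 + ‖ι‖) * K ι 1 a := by
  have hpos : 0 < 1 + ‖ι‖ := by positivity
  rw [← div_le_iff₀' hpos]
  refine le_ciInf fun x => ?_
  rw [div_le_iff₀' hpos]
  have h1 : ‖a‖ ≤ ‖a - ι x‖ + ‖ι x‖ := by
    calc ‖a‖ = ‖(a - ι x) + ι x‖ := by rw [sub_add_cancel]
      _ ≤ _ := norm_add_le _ _
  have h2 := ι.le_opNorm x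
  nlinarith [norm_nonneg (a - ι x), norm_nonneg x, norm_nonneg ι,
    mul_nonneg (norm_nonneg ι) (norm_nonneg (a - ι x)), mul_nonneg (norm_nonneg ι) (norm_nonneg x)]

/-- the integrand is measurable on `(0,∞)` -/
lemma K_meas (a : E0) (θ p : ℝ) :
    AEMeasurable (fun t : ℝ => ENNReal.ofReal ((t ^ (-θ) * K ι t a) ^ p / t))
      (volume.restrict (Ioi 0)) := by
  have h1 : AEMeasurable (fun t : ℝ => K ι t a) (volume.restrict (Ioi 0)) := by
    apply aemeasurable_restrict_of_monotoneOn measurableSet_Ioi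
    intro s hs t _ hst
    exact K_mono ι a (le_of_lt hs) hst
  have h2 : AEMeasurable (fun t : ℝ => t ^ (-θ)) (volume.restrict (Ioi 0)) :=
    (measurable_id.pow_const _).aemeasurable
  exact (((h2.mul h1).pow_const p).div measurable_id.aemeasurable).ennreal_ofReal

/-- the `p`-th power of the norm, over a set `s` -/
noncomputable def I (θ p : ℝ) (s : Set ℝ) (a : E0) : ℝ≥0∞ :=
  ∫⁻ t in s, ENNReal.ofReal ((t ^ (-θ) * K ι t a) ^ p / t)

lemma I_mono (θ p : ℝ) {s s' : Set ℝ} (h : s ⊆ s') (a : E0) : I ι θ p s a ≤ I ι θ p s' a :=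
  lintegral_mono_set h

/-- the small `t` part of the norm of a fixed element is small -/
lemma I_small (θ p : ℝ) (a : E0) (hfin : I ι θ p (Ioi 0) a ≠ ∞) {η : ℝ≥0∞} (hη : 0 < η) :
    ∃ ε : ℝ, 0 < ε ∧ I ι θ p (Ioc 0 ε) a < η := by
  obtain ⟨δ, hδ, h⟩ := exists_pos_setLIntegral_lt_of_measure_lt hfin hη.ne'
  obtain ⟨r, hr0, hr⟩ := ENNReal.lt_iff_exists_real_btwn.1 hδ
  refine ⟨r, ?_, ?_⟩
  · have := hr.1
    by_contra hcon
    rw [ENNReal.ofReal_of_nonpos (not_lt.1 hcon)] at this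
    exact lt_irrefl _ this
  · have h2 := h (Ioc 0 r) (by
      refine lt_of_le_of_lt (Measure.restrict_apply_le _ _) ?_
      rw [Real.volume_Ioc, sub_zero]
      exact hr.2)
    rw [Measure.restrict_restrict measurableSet_Ioc] at h2
    rwa [inter_eq_left.2 (fun x hx => hx.1)] at h2

lemma norm_pow_le (θ p : ℝ) (hθ : 0 < θ) (hp : 1 ≤ p) (a : E0) :
    ENNReal.ofReal (‖a‖ ^ p) ≤
      ENNReal.ofReal (2 * (2 ^ θ * (1 + ‖ι‖)) ^ p) * I ι θ p (Ioi 0) a := by
  have h1 : ENNReal.ofReal (((2 : ℝ) ^ (-θ) * K ι 1 a) ^ p / 2) ≤ I ι θ p (Ioi 0) a := by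
    calc ENNReal.ofReal (((2 : ℝ) ^ (-θ) * K ι 1 a) ^ p / 2)
        = ∫⁻ _ in Ioc (1 : ℝ) 2, ENNReal.ofReal (((2 : ℝ) ^ (-θ) * K ι 1 a) ^ p / 2) := by
          rw [setLIntegral_const, Real.volume_Ioc]
          norm_num
      _ ≤ ∫⁻ t in Ioc (1 : ℝ) 2, ENNReal.ofReal ((t ^ (-θ) * K ι t a) ^ p / t) := by
          apply setLIntegral_mono' measurableSet_Ioc
          intro t ht
          apply ENNReal.ofReal_le_ofReal
          have ht0 : 0 < t := by linarith [ht.1]
          have hK := K_nonneg ι (zero_le_one) a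
          have hK2 : K ι 1 a ≤ K ι t a := K_mono ι a zero_le_one ht.1.le
          have h3 : (2 : ℝ) ^ (-θ) ≤ t ^ (-θ) :=
            Real.rpow_le_rpow_of_nonpos ht0 ht.2 (by linarith)
          have h4 : ((2 : ℝ) ^ (-θ) * K ι 1 a) ^ p ≤ (t ^ (-θ) * K ι t a) ^ p := by
            apply Real.rpow_le_rpow (by positivity) _ (by linarith)
            exact mul_le_mul h3 hK2 hK (by positivity)
          exact div_le_div₀ (Real.rpow_nonneg (mul_nonneg (by positivity) (K_nonneg ι ht0.le a)) _)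
            h4 ht0 ht.2
      _ ≤ _ := lintegral_mono_set (fun x hx => by
          have := hx.1
          exact lt_trans zero_lt_one this)
  refine le_trans ?_ (mul_le_mul_right h1 _)
  rw [← ENNReal.ofReal_mul (by positivity)]
  apply ENNReal.ofReal_le_ofReal
  have hK := K_nonneg ι (zero_le_one) a
  have h5 : 2 * (2 ^ θ * (1 + ‖ι‖)) ^ p * (((2 : ℝ) ^ (-θ) * K ι 1 a) ^ p / 2)
      = ((1 + ‖ι‖) * K ι 1 a) ^ p := by
    have h6 : 2 * (2 ^ θ * (1 + ‖ι‖)) ^ p * (((2 : ℝ) ^ (-θ) * K ι 1 a) ^ p / 2)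
      = (2 ^ θ * (1 + ‖ι‖)) ^ p * (((2 : ℝ) ^ (-θ) * K ι 1 a) ^ p) := by ring
    rw [h6, ← Real.mul_rpow (by positivity) (mul_nonneg (by positivity) hK)]
    congr 1
    have h7 : (2 : ℝ) ^ θ * 2 ^ (-θ) = 1 := by
      rw [← Real.rpow_add (by norm_num)]; simp
    calc 2 ^ θ * (1 + ‖ι‖) * (2 ^ (-θ) * K ι 1 a) = (2 ^ θ * 2 ^ (-θ)) * ((1 + ‖ι‖) * K ι 1 a) := by ring
      _ = _ := by rw [h7, one_mul]
  rw [h5]
  exact Real.rpow_le_rpow (norm_nonneg _) (norm_le_K ι a) (by linarith)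

end basic

section main

variable {A0 A1 B0 B1 : Type*} [NormedAddCommGroup A0] [NormedSpace ℂ A0]
    [NormedAddCommGroup A1] [NormedSpace ℂ A1] [NormedAddCommGroup B0] [NormedSpace ℂ B0]
    [NormedAddCommGroup B1] [NormedSpace ℂ B1] {ιA : A1 →L[ℂ] A0} {ιB : B1 →L[ℂ] B0}
    {U : A0 → B0} {U1 : A1 → B1}

lemma exists_const (h : HypH ιA ιB U U1) : ∃ M : ℝ, 0 < M ∧
    (∀ a b : A0, ‖U a - U b‖ ≤ M * ‖a - b‖) ∧ ∀ t : ℝ, 0 ≤ t → ∀ a, K ιB t (U a) ≤ M * K ιA t a := by
  obtain ⟨hU, M0, M1, h0, h1⟩ := h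
  set M := 1 + |M0| + |M1| with hM
  have hM0 : M0 ≤ M := by have := le_abs_self M0; have := abs_nonneg M1; linarith
  have hM1 : M1 ≤ M := by have := le_abs_self M1; have := abs_nonneg M0; linarith
  have hMpos : 0 < M := by positivity
  refine ⟨M, hMpos, fun a b => (h0 a b).trans (mul_le_mul_of_nonneg_right hM0 (norm_nonneg _)), ?_⟩
  intro t ht a
  rw [← div_le_iff₀' hMpos]
  refine le_ciInf fun x => ?_
  rw [div_le_iff₀' hMpos]
  have h2 := K_le ιB ht (U a) (U1 x)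
  rw [hU x] at h2
  have h3 : ‖U a - U (ιA x)‖ ≤ M * ‖a - ιA x‖ :=
    (h0 a _).trans (mul_le_mul_of_nonneg_right hM0 (norm_nonneg _))
  have h4 : t * ‖U1 x‖ ≤ M * (t * ‖x‖) := by
    have : ‖U1 x‖ ≤ M * ‖x‖ := (h1 x).trans (mul_le_mul_of_nonneg_right hM1 (norm_nonneg _))
    nlinarith
  linarith

lemma two_pow {x y p : ℝ} (hx : 0 ≤ x) (hy : 0 ≤ y) (hp : 1 ≤ p) :
    (x + y) ^ p ≤ 2 ^ p * (x ^ p + y ^ p) := by
  have h1 : x + y ≤ 2 * max x y := by
    have := le_max_left x y; have := le_max_right x y; linarith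
  have h2 : (x + y) ^ p ≤ (2 * max x y) ^ p := Real.rpow_le_rpow (by positivity) h1 (by linarith)
  have h3 : (2 * max x y) ^ p = 2 ^ p * (max x y) ^ p := Real.mul_rpow (by norm_num) (by positivity)
  have h4 : (max x y) ^ p ≤ x ^ p + y ^ p := by
    have hxp : 0 ≤ x ^ p := Real.rpow_nonneg hx _
    have hyp : 0 ≤ y ^ p := Real.rpow_nonneg hy _
    rcases le_total x y with h | h
    · rw [max_eq_right h]; linarith
    · rw [max_eq_left h]; linarith
  rw [h3] at h2
  exact h2.trans (mul_le_mul_of_nonneg_left h4 (by positivity))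

/-- main estimate -/
lemma main_est (h : HypH ιA ιB U U1) {θ p : ℝ} (hθ : 0 < θ) (hp : 1 ≤ p) :
    ∃ C : ℝ, 0 < C ∧ ∀ ε : ℝ, 0 < ε → ∃ D : ℝ, 0 < D ∧ ∀ a a' : A0,
      I ιB θ p (Ioi 0) (U a' - U a) ≤
        ENNReal.ofReal C * I ιA θ p (Ioc 0 ε) a +
          ENNReal.ofReal D * I ιA θ p (Ioi 0) (a' - a) := by
  obtain ⟨M, hM, hL, hK⟩ := exists_const h
  refine ⟨(2 * M * 2) ^ p, by positivity, fun ε hε => ?_⟩
  set c1 : ℝ := 2 * (2 ^ θ * (1 + ‖ιA‖)) ^ p with hc1
  have hc1pos : 0 < c1 := by positivity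
  -- the integral of t^(-θ p - 1) over (ε, ∞)
  have hint : IntegrableOn (fun t : ℝ => t ^ (-(θ * p) - 1)) (Ioi ε) :=
    integrableOn_Ioi_rpow_of_lt (by nlinarith) hε
  set J : ℝ := ∫ t in Ioi ε, t ^ (-(θ * p) - 1) with hJ
  have hJ0 : 0 ≤ J := setIntegral_nonneg measurableSet_Ioi
    (fun t ht => Real.rpow_nonneg (hε.le.trans (le_of_lt ht)) _)
  have hlin : ∫⁻ t in Ioi ε, ENNReal.ofReal (t ^ (-(θ * p) - 1)) = ENNReal.ofReal J := by
    rw [hJ, ofReal_integral_eq_lintegral_ofReal hint]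
    exact (ae_restrict_mem measurableSet_Ioi).mono
      (fun t ht => Real.rpow_nonneg (hε.le.trans (le_of_lt ht)) _)
  refine ⟨(2 * M) ^ p + J * M ^ p * c1 + 1, by positivity, fun a a' => ?_⟩
  have hsplit : I ιB θ p (Ioi 0) (U a' - U a) ≤
      I ιB θ p (Ioc 0 ε) (U a' - U a) + I ιB θ p (Ioi ε) (U a' - U a) := by
    unfold I
    have : Ioi (0 : ℝ) ⊆ Ioc 0 ε ∪ Ioi ε := by
      intro x hx
      rcases le_or_gt x ε with h | h
      · exact Or.inl ⟨hx, h⟩
      · exact Or.inr h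
    exact (lintegral_mono_set this).trans (lintegral_union_le _ _ _)
  have hlarge : I ιB θ p (Ioi ε) (U a' - U a) ≤
      ENNReal.ofReal (J * M ^ p * c1) * I ιA θ p (Ioi 0) (a' - a) := by
    calc I ιB θ p (Ioi ε) (U a' - U a)
        ≤ ∫⁻ t in Ioi ε, ENNReal.ofReal ((M * ‖a' - a‖) ^ p) * ENNReal.ofReal (t ^ (-(θ * p) - 1)) := by
          apply setLIntegral_mono' measurableSet_Ioi
          intro t ht
          have ht0 : 0 < t := hε.trans ht
          rw [← ENNReal.ofReal_mul (by positivity)]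
          apply ENNReal.ofReal_le_ofReal
          have h1 : K ιB t (U a' - U a) ≤ M * ‖a' - a‖ :=
            (K_le_norm ιB ht0.le _).trans (hL a' a)
          have h0 := K_nonneg ιB ht0.le (U a' - U a)
          calc (t ^ (-θ) * K ιB t (U a' - U a)) ^ p / t
              = t ^ (-(θ * p) - 1) * (K ιB t (U a' - U a)) ^ p := by
                rw [Real.mul_rpow (by positivity) h0, ← Real.rpow_mul ht0.le,
                  Real.rpow_sub ht0, Real.rpow_one, neg_mul]
                ring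
            _ ≤ t ^ (-(θ * p) - 1) * (M * ‖a' - a‖) ^ p := by
                apply mul_le_mul_of_nonneg_left _ (by positivity)
                exact Real.rpow_le_rpow h0 h1 (by linarith)
            _ = _ := mul_comm _ _
      _ = ENNReal.ofReal ((M * ‖a' - a‖) ^ p) * ENNReal.ofReal J := by
          rw [lintegral_const_mul' _ _ ENNReal.ofReal_ne_top, hlin]
      _ = ENNReal.ofReal (J * M ^ p) * ENNReal.ofReal (‖a' - a‖ ^ p) := by
          rw [← ENNReal.ofReal_mul (by positivity), ← ENNReal.ofReal_mul (by positivity),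
            Real.mul_rpow hM.le (norm_nonneg _)]
          congr 1
          ring
      _ ≤ ENNReal.ofReal (J * M ^ p) * (ENNReal.ofReal c1 * I ιA θ p (Ioi 0) (a' - a)) :=
          mul_le_mul_right (norm_pow_le ιA θ p hθ hp _) _
      _ = _ := by
          rw [← mul_assoc, ← ENNReal.ofReal_mul (by positivity)]
  have hsmall : I ιB θ p (Ioc 0 ε) (U a' - U a) ≤
      ENNReal.ofReal ((2 * M * 2) ^ p) * I ιA θ p (Ioc 0 ε) a +
        ENNReal.ofReal ((2 * M) ^ p) * I ιA θ p (Ioi 0) (a' - a) := by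
    have hmeas : AEMeasurable (fun t : ℝ => ENNReal.ofReal ((2 * M * 2) ^ p) *
        ENNReal.ofReal ((t ^ (-θ) * K ιA t a) ^ p / t)) (volume.restrict (Ioc 0 ε)) :=
      ((K_meas ιA a θ p).mono_measure (Measure.restrict_mono_set _ (fun x hx => hx.1))).const_mul _
    calc I ιB θ p (Ioc 0 ε) (U a' - U a)
        ≤ ∫⁻ t in Ioc 0 ε, (ENNReal.ofReal ((2 * M * 2) ^ p) *
            ENNReal.ofReal ((t ^ (-θ) * K ιA t a) ^ p / t) +
          ENNReal.ofReal ((2 * M) ^ p) * ENNReal.ofReal ((t ^ (-θ) * K ιA t (a' - a)) ^ p / t)) := by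
          apply setLIntegral_mono' measurableSet_Ioc
          intro t ht
          have ht0 : 0 < t := ht.1
          have hk := K_nonneg ιA ht0.le a
          have hk' := K_nonneg ιA ht0.le a'
          have hkd := K_nonneg ιA ht0.le (a' - a)
          have htp : 0 < t ^ (-θ) := by positivity
          rw [← ENNReal.ofReal_mul (by positivity), ← ENNReal.ofReal_mul (by positivity),
            ← ENNReal.ofReal_add
              (mul_nonneg (by positivity) (div_nonneg (Real.rpow_nonneg (mul_nonneg htp.le hk) _) ht0.le))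
              (mul_nonneg (by positivity) (div_nonneg (Real.rpow_nonneg (mul_nonneg htp.le hkd) _) ht0.le))]
          apply ENNReal.ofReal_le_ofReal
          have h1 : K ιB t (U a' - U a) ≤ M * (2 * K ιA t a + K ιA t (a' - a)) := by
            have e1 := K_sub ιB ht0.le (U a') (U a)
            have e2 := hK t ht0.le a'
            have e3 := hK t ht0.le a
            have e4 : K ιA t a' ≤ K ιA t (a' - a) + K ιA t a := by
              have := K_add ιA ht0.le (a' - a) a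
              rwa [sub_add_cancel] at this
            nlinarith
          have h0 := K_nonneg ιB ht0.le (U a' - U a)
          have h2 : (t ^ (-θ) * K ιB t (U a' - U a)) ^ p ≤
              (2 * M * 2) ^ p * (t ^ (-θ) * K ιA t a) ^ p + (2 * M) ^ p * (t ^ (-θ) * K ιA t (a' - a)) ^ p := by
            calc (t ^ (-θ) * K ιB t (U a' - U a)) ^ p
                ≤ (M * 2 * (t ^ (-θ) * K ιA t a) + M * (t ^ (-θ) * K ιA t (a' - a))) ^ p := by
                  apply Real.rpow_le_rpow (by positivity) _ (by linarith)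
                  calc t ^ (-θ) * K ιB t (U a' - U a)
                      ≤ t ^ (-θ) * (M * (2 * K ιA t a + K ιA t (a' - a))) :=
                        mul_le_mul_of_nonneg_left h1 htp.le
                    _ = _ := by ring
              _ ≤ 2 ^ p * ((M * 2 * (t ^ (-θ) * K ιA t a)) ^ p + (M * (t ^ (-θ) * K ιA t (a' - a))) ^ p) :=
                  two_pow (by positivity) (by positivity) hp
              _ = _ := by
                  have q1 : (M * 2 * (t ^ (-θ) * K ιA t a)) ^ p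
                      = M ^ p * 2 ^ p * (t ^ (-θ) * K ιA t a) ^ p := by
                    rw [Real.mul_rpow (by positivity) (mul_nonneg htp.le hk),
                      Real.mul_rpow hM.le (by norm_num)]
                  have q2 : (M * (t ^ (-θ) * K ιA t (a' - a))) ^ p
                      = M ^ p * (t ^ (-θ) * K ιA t (a' - a)) ^ p :=
                    Real.mul_rpow hM.le (mul_nonneg htp.le hkd)
                  have q3 : (2 * M * 2) ^ p = 2 ^ p * M ^ p * 2 ^ p := by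
                    rw [Real.mul_rpow (by positivity) (by norm_num), Real.mul_rpow (by norm_num) hM.le]
                  have q4 : (2 * M) ^ p = 2 ^ p * M ^ p := Real.mul_rpow (by norm_num) hM.le
                  rw [q1, q2, q3, q4]
                  ring
          calc (t ^ (-θ) * K ιB t (U a' - U a)) ^ p / t
              ≤ ((2 * M * 2) ^ p * (t ^ (-θ) * K ιA t a) ^ p + (2 * M) ^ p * (t ^ (-θ) * K ιA t (a' - a)) ^ p) / t :=
                div_le_div_of_nonneg_right h2 ht0.le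
            _ = _ := by ring
      _ = ENNReal.ofReal ((2 * M * 2) ^ p) * I ιA θ p (Ioc 0 ε) a +
        ENNReal.ofReal ((2 * M) ^ p) * I ιA θ p (Ioc 0 ε) (a' - a) := by
          rw [lintegral_add_left' hmeas, lintegral_const_mul' _ _ ENNReal.ofReal_ne_top,
            lintegral_const_mul' _ _ ENNReal.ofReal_ne_top]
          rfl
      _ ≤ _ := by
          gcongr
          exact I_mono ιA θ p (fun x hx => hx.1) _
  calc I ιB θ p (Ioi 0) (U a' - U a) ≤ _ := hsplit
    _ ≤ (ENNReal.ofReal ((2 * M * 2) ^ p) * I ιA θ p (Ioc 0 ε) a +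
        ENNReal.ofReal ((2 * M) ^ p) * I ιA θ p (Ioi 0) (a' - a)) +
        ENNReal.ofReal (J * M ^ p * c1) * I ιA θ p (Ioi 0) (a' - a) := add_le_add hsmall hlarge
    _ = ENNReal.ofReal ((2 * M * 2) ^ p) * I ιA θ p (Ioc 0 ε) a +
        ENNReal.ofReal ((2 * M) ^ p + J * M ^ p * c1) * I ιA θ p (Ioi 0) (a' - a) := by
        rw [ENNReal.ofReal_add (by positivity) (by positivity)]
        ring
    _ ≤ _ := by
        refine add_le_add le_rfl (mul_le_mul' (ENNReal.ofReal_le_ofReal ?_) le_rfl)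
        linarith

lemma knorm_lt_top_iff {E0 E1 : Type*} [NormedAddCommGroup E0] [NormedSpace ℂ E0]
    [NormedAddCommGroup E1] [NormedSpace ℂ E1] (ι : E1 →L[ℂ] E0) (θ : ℝ) {p : ℝ≥0∞}
    (hp1 : 1 ≤ p) (hp : p ≠ ∞) (a : E0) :
    knorm ι θ p a < ∞ ↔ I ι θ p.toReal (Ioi 0) a < ∞ := by
  have hpr : 0 < p.toReal := ENNReal.toReal_pos (fun h => by simp [h] at hp1) hp
  unfold knorm
  rw [if_neg hp]
  change (I ι θ p.toReal (Ioi 0) a) ^ (1 / p.toReal) < ∞ ↔ _
  rw [ENNReal.rpow_lt_top_iff_of_pos (by positivity)]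

lemma knorm_lt_iff {E0 E1 : Type*} [NormedAddCommGroup E0] [NormedSpace ℂ E0]
    [NormedAddCommGroup E1] [NormedSpace ℂ E1] (ι : E1 →L[ℂ] E0) (θ : ℝ) {p : ℝ≥0∞}
    (hp1 : 1 ≤ p) (hp : p ≠ ∞) (a : E0) (c : ℝ≥0∞) :
    knorm ι θ p a < c ↔ I ι θ p.toReal (Ioi 0) a < c ^ p.toReal := by
  have hpr : 0 < p.toReal := ENNReal.toReal_pos (fun h => by simp [h] at hp1) hp
  unfold knorm
  rw [if_neg hp]
  change (I ι θ p.toReal (Ioi 0) a) ^ (1 / p.toReal) < c ↔ _
  constructor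
  · intro h
    have := ENNReal.rpow_lt_rpow h hpr
    rwa [← ENNReal.rpow_mul, one_div, inv_mul_cancel₀ hpr.ne', ENNReal.rpow_one] at this
  · intro h
    have := ENNReal.rpow_lt_rpow h (z := 1 / p.toReal) (by positivity)
    rwa [← ENNReal.rpow_mul, mul_one_div, div_self hpr.ne', ENNReal.rpow_one] at this

theorem pos_part (h : HypH ιA ιB U U1) {θ : ℝ} (hθ : 0 < θ) {p : ℝ≥0∞} (hp1 : 1 ≤ p) (hp : p ≠ ∞)
    (a : A0) (ha : knorm ιA θ p a < ∞) : knorm ιB θ p (U a) < ∞ ∧ ContAt ιA ιB U θ p a := by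
  have hpr1 : 1 ≤ p.toReal := by
    have := ENNReal.toReal_mono hp hp1
    simpa using this
  constructor
  · obtain ⟨M, hM, hL, hK⟩ := exists_const h
    rw [knorm_lt_top_iff ιA θ hp1 hp] at ha
    rw [knorm_lt_top_iff ιB θ hp1 hp]
    refine lt_of_le_of_lt ?_ (ENNReal.mul_lt_top (ENNReal.ofReal_lt_top (r := M ^ p.toReal)) ha)
    unfold I
    rw [← lintegral_const_mul' _ _ ENNReal.ofReal_ne_top]
    apply setLIntegral_mono' measurableSet_Ioi
    intro t ht
    have ht0 : 0 < t := ht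
    rw [← ENNReal.ofReal_mul (by positivity)]
    apply ENNReal.ofReal_le_ofReal
    have hk := K_nonneg ιA ht0.le a
    have hkb := K_nonneg ιB ht0.le (U a)
    have h1 : (t ^ (-θ) * K ιB t (U a)) ^ p.toReal ≤ M ^ p.toReal * (t ^ (-θ) * K ιA t a) ^ p.toReal := by
      rw [← Real.mul_rpow hM.le (by positivity)]
      apply Real.rpow_le_rpow (by positivity) _ (by linarith)
      have htp : 0 < t ^ (-θ) := by positivity
      calc t ^ (-θ) * K ιB t (U a) ≤ t ^ (-θ) * (M * K ιA t a) :=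
            mul_le_mul_of_nonneg_left (hK t ht0.le a) htp.le
        _ = _ := by ring
    calc (t ^ (-θ) * K ιB t (U a)) ^ p.toReal / t
        ≤ (M ^ p.toReal * (t ^ (-θ) * K ιA t a) ^ p.toReal) / t := div_le_div_of_nonneg_right h1 ht0.le
      _ = _ := by ring
  · obtain ⟨C, hC, hmain⟩ := main_est h hθ hpr1
    intro ε hε
    rw [knorm_lt_top_iff ιA θ hp1 hp] at ha
    by_cases hεt : ε = ∞
    · -- any δ works once the difference has finite norm
      obtain ⟨D, hD, hest⟩ := hmain 1 one_pos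
      refine ⟨1, one_pos, fun a' _ hd => ?_⟩
      rw [knorm_lt_iff ιA θ hp1 hp] at hd
      rw [hεt, knorm_lt_top_iff ιB θ hp1 hp]
      refine lt_of_le_of_lt (hest a a') ?_
      refine ENNReal.add_lt_top.2 ⟨ENNReal.mul_lt_top ENNReal.ofReal_lt_top
        (lt_of_le_of_lt (I_mono ιA _ _ (fun x hx => hx.1) a) ha), ENNReal.mul_lt_top ENNReal.ofReal_lt_top
        (hd.trans_le le_top)⟩
    set η : ℝ≥0∞ := ε ^ p.toReal with hη
    have hηpos : 0 < η := ENNReal.rpow_pos hε hεt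
    have hηt : η ≠ ∞ := ENNReal.rpow_ne_top_of_nonneg (by linarith) hεt
    have hC0 : ENNReal.ofReal C ≠ 0 := by simpa using hC
    obtain ⟨e, he, hsm⟩ := I_small ιA θ p.toReal a ha.ne
      (η := η / 2 / ENNReal.ofReal C)
      (ENNReal.div_pos (ENNReal.half_pos hηpos.ne').ne' ENNReal.ofReal_ne_top)
    obtain ⟨D, hD, hest⟩ := hmain e he
    have hD0 : ENNReal.ofReal D ≠ 0 := by simpa using hD
    set δ' : ℝ≥0∞ := η / 2 / ENNReal.ofReal D with hδ'
    have hδ'pos : 0 < δ' := ENNReal.div_pos (ENNReal.half_pos hηpos.ne').ne' ENNReal.ofReal_ne_top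
    have hδ't : δ' ≠ ∞ := ENNReal.div_ne_top (ENNReal.div_ne_top hηt (by norm_num)) hD0
    refine ⟨δ' ^ (1 / p.toReal), ENNReal.rpow_pos hδ'pos hδ't, fun a' _ hd => ?_⟩
    rw [knorm_lt_iff ιA θ hp1 hp, ← ENNReal.rpow_mul, one_div, inv_mul_cancel₀ (by linarith),
      ENNReal.rpow_one] at hd
    rw [knorm_lt_iff ιB θ hp1 hp]
    refine lt_of_le_of_lt (hest a a') ?_
    have e1 : ENNReal.ofReal C * I ιA θ p.toReal (Ioc 0 e) a < η / 2 := by
      have := ENNReal.mul_lt_of_lt_div' hsm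
      exact this
    have e2 : ENNReal.ofReal D * I ιA θ p.toReal (Ioi 0) (a' - a) < η / 2 :=
      ENNReal.mul_lt_of_lt_div' hd
    calc _ < η / 2 + η / 2 := ENNReal.add_lt_add e1 e2
      _ = η := ENNReal.add_halves η

end main

end Pool.Agent.H7.KM
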