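import Pool.Agent.H7.KM.Basic

set_option autoImplicit false

open Set Filter Topology
open scoped ENNReal NNReal

namespace Pool.Agent.H7.KM

/-- the complex space `ℓ¹` -/
abbrev L1 : Type := lp (fun _ : ℕ => ℂ) 1

lemma L1_summable (x : L1) : Summable fun n => ‖x n‖ := by
  have h := lp.memℓp x
  rw [memℓp_gen_iff (by norm_num)] at h
  simpa using h

lemma L1_norm (x : L1) : ‖x‖ = ∑' n, ‖x n‖ := by
  rw [lp.norm_eq_tsum_rpow (by norm_num)]
  simp

/-- build an element of `ℓ¹` -/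
def mk (f : ℕ → ℂ) (h : Summable fun n => ‖f n‖) : L1 :=
  ⟨f, by
    change Memℓp f 1
    rw [memℓp_gen_iff (by norm_num)]; simpa using h⟩

@[simp] lemma mk_apply (f : ℕ → ℂ) (h : Summable fun n => ‖f n‖) (n : ℕ) : mk f h n = f n := rfl

lemma mk_norm (f : ℕ → ℂ) (h : Summable fun n => ‖f n‖) : ‖mk f h‖ = ∑' n, ‖f n‖ := L1_norm _

lemma half_mul_norm_le (n : ℕ) (z : ℂ) : ‖(2⁻¹ : ℂ) ^ n * z‖ ≤ ‖z‖ := by
  rw [norm_mul, norm_pow]
  have : ‖(2⁻¹ : ℂ)‖ ^ n ≤ 1 := pow_le_one₀ (norm_nonneg _) (by norm_num)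
  nlinarith [norm_nonneg z]

lemma inc_summable (x : L1) : Summable fun n => ‖(2⁻¹ : ℂ) ^ n * x n‖ :=
  Summable.of_nonneg_of_le (fun n => norm_nonneg _) (fun n => half_mul_norm_le n _) (L1_summable x)

/-- the inclusion of the weighted space `ℓ¹(2^n)` (transported to `ℓ¹`) -/
noncomputable def inc : L1 →L[ℂ] L1 :=
  LinearMap.mkContinuous
    { toFun := fun x => mk (fun n => (2⁻¹ : ℂ) ^ n * x n) (inc_summable x)
      map_add' := fun x y => by
        ext n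
        simp [mul_add]
      map_smul' := fun c x => by
        ext n
        simp only [mk_apply, RingHom.id_apply, lp.coeFn_smul, Pi.smul_apply, smul_eq_mul]
        ring } 1 (by
    intro x
    rw [one_mul, L1_norm x]
    refine (mk_norm _ (inc_summable x)).le.trans ?_
    exact Summable.tsum_le_tsum (fun n => half_mul_norm_le n _) (inc_summable x) (L1_summable x))

lemma inc_apply (x : L1) (n : ℕ) : inc x n = (2⁻¹ : ℂ) ^ n * x n := rfl

lemma inc_norm_apply (x : L1) (n : ℕ) : ‖inc x n‖ = (2⁻¹ : ℝ) ^ n * ‖x n‖ := by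
  rw [inc_apply, norm_mul, norm_pow]
  norm_num

lemma inc_inj : Function.Injective inc := by
  intro x y h
  ext n
  have h1 : inc x n = inc y n := by rw [h]
  rw [inc_apply, inc_apply] at h1
  exact mul_left_cancel₀ (pow_ne_zero _ (by norm_num)) h1

lemma inc_norm_le (x : L1) : ‖inc x‖ ≤ ‖x‖ := by
  rw [L1_norm, L1_norm]
  exact Summable.tsum_le_tsum (fun n => half_mul_norm_le n _) (inc_summable x) (L1_summable x)

section counter

variable (θ : ℝ)

/-- `2^{-θ/2}` -/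
noncomputable def rho : ℝ := (2 : ℝ) ^ (-(θ / 2))

lemma rho_pos : 0 < rho θ := by unfold rho; positivity

lemma rho_lt_one (hθ : 0 < θ) : rho θ < 1 :=
  Real.rpow_lt_one_of_one_lt_of_neg (by norm_num) (by linarith)

/-- the point of discontinuity, `a_n = 2^{-θ n}` -/
lemma astar_summable (hθ : 0 < θ) : Summable fun n : ℕ => ‖(((rho θ ^ 2) ^ n : ℝ) : ℂ)‖ := by
  have h1 := rho_pos θ
  have h2 := rho_lt_one θ hθ
  have : (fun n : ℕ => ‖(((rho θ ^ 2) ^ n : ℝ) : ℂ)‖) = fun n : ℕ => (rho θ ^ 2) ^ n := by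
    funext n
    rw [Complex.norm_real, Real.norm_of_nonneg (by positivity)]
  rw [this]
  exact summable_geometric_of_lt_one (by positivity) (by nlinarith)

/-- the point of discontinuity -/
noncomputable def astar (hθ : 0 < θ) : L1 :=
  mk (fun n => (((rho θ ^ 2) ^ n : ℝ) : ℂ)) (astar_summable θ hθ)

/-- the oscillation factor -/
noncomputable def psi (s0 : ℝ) (n : ℕ) (s : ℝ) : ℝ := min 1 (((rho θ) ^ n)⁻¹ * |s - s0|)

lemma psi_nonneg (s0 : ℝ) (n : ℕ) (s : ℝ) : 0 ≤ psi θ s0 n s := by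
  have := rho_pos θ
  unfold psi
  exact le_min zero_le_one (by positivity)

lemma psi_le_one (s0 : ℝ) (n : ℕ) (s : ℝ) : psi θ s0 n s ≤ 1 := min_le_left _ _

lemma psi_self (s0 : ℝ) (n : ℕ) : psi θ s0 n s0 = 0 := by
  unfold psi; simp

lemma psi_lip (s0 : ℝ) (n : ℕ) (s t : ℝ) :
    abs (psi θ s0 n s - psi θ s0 n t) ≤ ((rho θ) ^ n)⁻¹ * |s - t| := by
  have h := rho_pos θ
  have hc : 0 < ((rho θ) ^ n)⁻¹ := by positivity
  have h1 := abs_min_sub_min_le_max 1 (((rho θ) ^ n)⁻¹ * |s - s0|) 1 (((rho θ) ^ n)⁻¹ * |t - s0|)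
  unfold psi
  refine h1.trans ?_
  rw [sub_self, abs_zero]
  refine max_le (by positivity) ?_
  rw [← mul_sub, abs_mul, abs_of_pos hc]
  refine mul_le_mul_of_nonneg_left ?_ hc.le
  have := abs_abs_sub_abs_le (s - s0) (t - s0)
  simpa using this

lemma psi_cont (s0 : ℝ) (n : ℕ) : Continuous (psi θ s0 n) := by
  unfold psi
  fun_prop

/-- coordinate of `U a` -/
noncomputable def uc (s0 : ℝ) (a : L1) (n : ℕ) : ℝ :=
  min ‖a n‖ ((rho θ ^ 2) ^ n) * psi θ s0 n ‖a‖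

lemma uc_nonneg (s0 : ℝ) (a : L1) (n : ℕ) : 0 ≤ uc θ s0 a n := by
  have := rho_pos θ
  unfold uc
  exact mul_nonneg (le_min (norm_nonneg _) (by positivity)) (psi_nonneg θ s0 n _)

lemma uc_le (s0 : ℝ) (a : L1) (n : ℕ) : uc θ s0 a n ≤ ‖a n‖ := by
  have := rho_pos θ
  have h0 : 0 ≤ min ‖a n‖ ((rho θ ^ 2) ^ n) := le_min (norm_nonneg _) (by positivity)
  unfold uc
  calc _ ≤ min ‖a n‖ ((rho θ ^ 2) ^ n) * 1 := mul_le_mul_of_nonneg_left (psi_le_one θ s0 n _) h0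
    _ ≤ _ := by rw [mul_one]; exact min_le_left _ _

lemma uc_summable (s0 : ℝ) (a : L1) : Summable fun n => ‖((uc θ s0 a n : ℝ) : ℂ)‖ := by
  refine Summable.of_nonneg_of_le (fun n => norm_nonneg _) (fun n => ?_) (L1_summable a)
  rw [Complex.norm_real, Real.norm_of_nonneg (uc_nonneg θ s0 a n)]
  exact uc_le θ s0 a n

/-- the map `U` -/
noncomputable def UU (s0 : ℝ) (a : L1) : L1 := mk (fun n => ((uc θ s0 a n : ℝ) : ℂ)) (uc_summable θ s0 a)

lemma uc1_le (s0 : ℝ) (x : L1) (n : ℕ) : (2 : ℝ) ^ n * uc θ s0 (inc x) n ≤ ‖x n‖ := by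
  have h1 := uc_le θ s0 (inc x) n
  rw [inc_norm_apply] at h1
  calc (2 : ℝ) ^ n * uc θ s0 (inc x) n ≤ 2 ^ n * ((2⁻¹ : ℝ) ^ n * ‖x n‖) :=
        mul_le_mul_of_nonneg_left h1 (by positivity)
    _ = _ := by rw [← mul_assoc, ← mul_pow]; norm_num

lemma uc1_summable (s0 : ℝ) (x : L1) :
    Summable fun n => ‖(((2 : ℝ) ^ n * uc θ s0 (inc x) n : ℝ) : ℂ)‖ := by
  refine Summable.of_nonneg_of_le (fun n => norm_nonneg _) (fun n => ?_) (L1_summable x)
  rw [Complex.norm_real, Real.norm_of_nonneg (mul_nonneg (by positivity) (uc_nonneg θ s0 _ n))]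
  exact uc1_le θ s0 x n

/-- the restriction of `U` to the small space -/
noncomputable def UU1 (s0 : ℝ) (x : L1) : L1 :=
  mk (fun n => (((2 : ℝ) ^ n * uc θ s0 (inc x) n : ℝ) : ℂ)) (uc1_summable θ s0 x)

/-- coordinatewise difference estimate -/
lemma uc_diff (s0 : ℝ) (a b : L1) (n : ℕ) :
    abs (uc θ s0 a n - uc θ s0 b n) ≤ ‖a n - b n‖ +
      min ‖b n‖ ((rho θ ^ 2) ^ n) * abs (psi θ s0 n ‖a‖ - psi θ s0 n ‖b‖) := by
  have hr := rho_pos θ
  have h0 : 0 ≤ min ‖b n‖ ((rho θ ^ 2) ^ n) := le_min (norm_nonneg _) (by positivity)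
  have h1 : abs (min ‖a n‖ ((rho θ ^ 2) ^ n) - min ‖b n‖ ((rho θ ^ 2) ^ n)) ≤ ‖a n - b n‖ := by
    refine (abs_min_sub_min_le_max _ _ _ _).trans ?_
    rw [sub_self, abs_zero]
    exact max_le (abs_norm_sub_norm_le _ _) (norm_nonneg _)
  have h2 : uc θ s0 a n - uc θ s0 b n =
      (min ‖a n‖ ((rho θ ^ 2) ^ n) - min ‖b n‖ ((rho θ ^ 2) ^ n)) * psi θ s0 n ‖a‖ +
        min ‖b n‖ ((rho θ ^ 2) ^ n) * (psi θ s0 n ‖a‖ - psi θ s0 n ‖b‖) := by
    unfold uc; ring
  rw [h2]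
  refine (abs_add_le _ _).trans ?_
  refine add_le_add ?_ ?_
  · rw [abs_mul, abs_of_nonneg (psi_nonneg θ s0 n _)]
    calc _ ≤ ‖a n - b n‖ * 1 := mul_le_mul h1 (psi_le_one θ s0 n _) (psi_nonneg θ s0 n _) (norm_nonneg _)
      _ = _ := mul_one _
  · rw [abs_mul, abs_of_nonneg h0]

/-- `U` is Lipschitz on `ℓ¹` -/
lemma UU_lip (hθ : 0 < θ) (s0 : ℝ) (a b : L1) :
    ‖UU θ s0 a - UU θ s0 b‖ ≤ (1 + (1 - rho θ)⁻¹) * ‖a - b‖ := by
  have hr := rho_pos θ
  have hr1 := rho_lt_one θ hθ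
  have hterm : ∀ n, ‖(UU θ s0 a - UU θ s0 b) n‖ ≤ ‖(a - b) n‖ + rho θ ^ n * ‖a - b‖ := by
    intro n
    have h1 : (UU θ s0 a - UU θ s0 b) n = ((uc θ s0 a n - uc θ s0 b n : ℝ) : ℂ) := by
      simp [UU]
    rw [h1, Complex.norm_real, Real.norm_eq_abs]
    refine (uc_diff θ s0 a b n).trans (add_le_add (le_of_eq (by simp)) ?_)
    calc min ‖b n‖ ((rho θ ^ 2) ^ n) * abs (psi θ s0 n ‖a‖ - psi θ s0 n ‖b‖)
        ≤ (rho θ ^ 2) ^ n * ((rho θ ^ n)⁻¹ * |‖a‖ - ‖b‖|) :=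
          mul_le_mul (min_le_right _ _) (psi_lip θ s0 n _ _) (abs_nonneg _) (by positivity)
      _ = rho θ ^ n * |‖a‖ - ‖b‖| := by
          rw [← mul_assoc]
          congr 1
          rw [← pow_mul, mul_comm 2 n, pow_mul, sq]
          field_simp
      _ ≤ _ := mul_le_mul_of_nonneg_left (abs_norm_sub_norm_le _ _) (by positivity)
  have hgeo : Summable fun n : ℕ => rho θ ^ n * ‖a - b‖ :=
    (summable_geometric_of_lt_one hr.le hr1).mul_right _
  rw [L1_norm (UU θ s0 a - UU θ s0 b)]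
  calc ∑' n, ‖(UU θ s0 a - UU θ s0 b) n‖ ≤ ∑' n, (‖(a - b) n‖ + rho θ ^ n * ‖a - b‖) :=
        Summable.tsum_le_tsum hterm (L1_summable _) ((L1_summable _).add hgeo)
    _ = ‖a - b‖ + (1 - rho θ)⁻¹ * ‖a - b‖ := by
        rw [(L1_summable _).tsum_add hgeo, tsum_mul_right, tsum_geometric_of_lt_one hr.le hr1,
          ← L1_norm]
    _ = _ := by ring

lemma UU1_bound (s0 : ℝ) (x : L1) : ‖UU1 θ s0 x‖ ≤ 1 * ‖x‖ := by
  rw [one_mul, L1_norm x]
  refine (mk_norm _ (uc1_summable θ s0 x)).le.trans ?_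
  refine Summable.tsum_le_tsum (fun n => ?_) (uc1_summable θ s0 x) (L1_summable x)
  rw [Complex.norm_real, Real.norm_of_nonneg (mul_nonneg (by positivity) (uc_nonneg θ s0 _ n))]
  exact uc1_le θ s0 x n

lemma UU1_comm (s0 : ℝ) (x : L1) : inc (UU1 θ s0 x) = UU θ s0 (inc x) := by
  ext n
  rw [inc_apply]
  simp only [UU1, UU, mk_apply]
  push_cast
  rw [← mul_assoc, ← mul_pow]
  norm_num

/-- `U₁` is continuous -/
lemma UU1_cont (s0 : ℝ) : Continuous (UU1 θ s0) := by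
  rw [continuous_iff_continuousAt]
  intro x
  rw [ContinuousAt, tendsto_iff_norm_sub_tendsto_zero]
  have hbound : ∀ y : L1, ‖UU1 θ s0 y - UU1 θ s0 x‖ ≤ ‖y - x‖ +
      ∑' n, ‖x n‖ * abs (psi θ s0 n ‖inc y‖ - psi θ s0 n ‖inc x‖) := by
    intro y
    have hs : Summable fun n => ‖x n‖ * abs (psi θ s0 n ‖inc y‖ - psi θ s0 n ‖inc x‖) := by
      refine Summable.of_nonneg_of_le (fun n => by positivity) (fun n => ?_)
        ((L1_summable x).mul_right 1)
      refine mul_le_mul_of_nonneg_left ?_ (norm_nonneg _)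
      rw [abs_le]
      constructor <;> linarith [psi_nonneg θ s0 n ‖inc y‖, psi_nonneg θ s0 n ‖inc x‖,
        psi_le_one θ s0 n ‖inc y‖, psi_le_one θ s0 n ‖inc x‖]
    have hterm : ∀ n, ‖(UU1 θ s0 y - UU1 θ s0 x) n‖ ≤ ‖(y - x) n‖ +
        ‖x n‖ * abs (psi θ s0 n ‖inc y‖ - psi θ s0 n ‖inc x‖) := by
      intro n
      have h1 : (UU1 θ s0 y - UU1 θ s0 x) n =
          (((2 : ℝ) ^ n * (uc θ s0 (inc y) n - uc θ s0 (inc x) n) : ℝ) : ℂ) := by
        simp [UU1, mul_sub]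
      rw [h1, Complex.norm_real, Real.norm_eq_abs, abs_mul, abs_of_pos (by positivity)]
      have h2 := uc_diff θ s0 (inc y) (inc x) n
      have h3 : ‖inc y n - inc x n‖ = (2⁻¹ : ℝ) ^ n * ‖(y - x) n‖ := by
        rw [← inc_norm_apply]
        congr 1
        rw [map_sub]
        simp
      have h4 : min ‖inc x n‖ ((rho θ ^ 2) ^ n) ≤ (2⁻¹ : ℝ) ^ n * ‖x n‖ := by
        rw [← inc_norm_apply]; exact min_le_left _ _
      calc (2 : ℝ) ^ n * abs (uc θ s0 (inc y) n - uc θ s0 (inc x) n)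
          ≤ (2 : ℝ) ^ n * ((2⁻¹ : ℝ) ^ n * ‖(y - x) n‖ + (2⁻¹ : ℝ) ^ n * ‖x n‖ *
              abs (psi θ s0 n ‖inc y‖ - psi θ s0 n ‖inc x‖)) := by
            refine mul_le_mul_of_nonneg_left (h2.trans ?_) (by positivity)
            rw [h3]
            exact add_le_add le_rfl (mul_le_mul_of_nonneg_right h4 (abs_nonneg _))
        _ = ((2 : ℝ) * 2⁻¹) ^ n * (‖(y - x) n‖ + ‖x n‖ *
              abs (psi θ s0 n ‖inc y‖ - psi θ s0 n ‖inc x‖)) := by
            rw [mul_pow]; ring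
        _ = _ := by norm_num
    rw [L1_norm (UU1 θ s0 y - UU1 θ s0 x)]
    calc _ ≤ ∑' n, (‖(y - x) n‖ + ‖x n‖ * abs (psi θ s0 n ‖inc y‖ - psi θ s0 n ‖inc x‖)) :=
          Summable.tsum_le_tsum hterm (L1_summable _) ((L1_summable _).add hs)
      _ = _ := by rw [(L1_summable _).tsum_add hs, ← L1_norm]
  have hlim : Tendsto (fun y : L1 => ‖y - x‖ +
      ∑' n, ‖x n‖ * abs (psi θ s0 n ‖inc y‖ - psi θ s0 n ‖inc x‖)) (𝓝 x) (𝓝 (0 + 0)) := by
    refine Tendsto.add ?_ ?_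
    · have : Tendsto (fun y : L1 => ‖y - x‖) (𝓝 x) (𝓝 ‖x - x‖) :=
        (continuous_id.sub continuous_const).norm.tendsto x
      simpa using this
    · have h0 : (0 : ℝ) = ∑' n : ℕ, (0 : ℝ) := by simp
      rw [h0]
      refine tendsto_tsum_of_dominated_convergence (bound := fun n => ‖x n‖) (L1_summable x) ?_ ?_
      · intro n
        have hc : Continuous fun y : L1 => ‖x n‖ * abs (psi θ s0 n ‖inc y‖ - psi θ s0 n ‖inc x‖) :=
          continuous_const.mul (((psi_cont θ s0 n).comp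
            (continuous_norm.comp inc.continuous)).sub continuous_const).abs
        have := hc.tendsto x
        simpa using this
      · refine Eventually.of_forall fun y n => ?_
        rw [Real.norm_of_nonneg (by positivity)]
        have : abs (psi θ s0 n ‖inc y‖ - psi θ s0 n ‖inc x‖) ≤ 1 := by
          rw [abs_le]
          constructor <;> linarith [psi_nonneg θ s0 n ‖inc y‖, psi_nonneg θ s0 n ‖inc x‖,
            psi_le_one θ s0 n ‖inc y‖, psi_le_one θ s0 n ‖inc x‖]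
        nlinarith [norm_nonneg (x n)]
  rw [add_zero] at hlim
  exact squeeze_zero (fun y => norm_nonneg _) hbound hlim

lemma rho_sq_eq : rho θ ^ 2 = (2 : ℝ) ^ (-θ) := by
  unfold rho
  rw [← Real.rpow_natCast, ← Real.rpow_mul (by norm_num)]
  congr 1
  push_cast
  ring

lemma q_pow (n : ℕ) : (rho θ ^ 2) ^ n = ((2⁻¹ : ℝ) ^ n) ^ θ := by
  rw [rho_sq_eq, ← Real.rpow_natCast, ← Real.rpow_natCast, ← Real.rpow_mul (by norm_num),
    ← Real.rpow_mul (by norm_num), Real.inv_rpow (by norm_num), ← Real.rpow_neg (by norm_num)]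
  congr 1
  ring

/-- cut-off of `a*` in the small space -/
lemma cut_summable (N : ℕ) : Summable fun n : ℕ =>
    ‖(((if n < N then (2 * rho θ ^ 2) ^ n else 0 : ℝ)) : ℂ)‖ :=
  summable_of_ne_finset_zero (s := Finset.range N) (fun n hn => by
    rw [if_neg (by simpa using hn)]; simp)

noncomputable def cut (N : ℕ) : L1 :=
  mk (fun n => (((if n < N then (2 * rho θ ^ 2) ^ n else 0 : ℝ)) : ℂ)) (cut_summable θ N)

lemma K_astar (hθ : 0 < θ) (hθ1 : θ < 1) : ∃ C : ℝ, 0 < C ∧ ∀ t : ℝ, 0 < t →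
    K inc t (astar θ hθ) ≤ C * t ^ θ := by
  have hr := rho_pos θ
  have hr1 := rho_lt_one θ hθ
  set q : ℝ := rho θ ^ 2 with hq
  have hq0 : 0 < q := by positivity
  have hq1 : q < 1 := by nlinarith
  have h2q : 1 < 2 * q := by
    rw [hq, rho_sq_eq]
    have : (2 : ℝ) * 2 ^ (-θ) = 2 ^ (1 - θ) := by
      rw [sub_eq_add_neg, Real.rpow_add (by norm_num), Real.rpow_one]
    rw [this]
    exact Real.one_lt_rpow (by norm_num) (by linarith)
  refine ⟨‖astar θ hθ‖ + ((1 - q)⁻¹ + 2 / (2 * q - 1)), ?_, ?_⟩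
  · have h1 : 0 < (1 - q)⁻¹ := inv_pos.2 (by linarith)
    have h2 : 0 < 2 / (2 * q - 1) := div_pos two_pos (by linarith)
    have h3 := norm_nonneg (astar θ hθ)
    linarith
  intro t ht
  have h1' : 0 < (1 - q)⁻¹ := inv_pos.2 (by linarith)
  have h2' : 0 < 2 / (2 * q - 1) := div_pos two_pos (by linarith)
  have h3' := norm_nonneg (astar θ hθ)
  rcases le_or_gt 1 t with h1 | h1
  · have h2 : 1 ≤ t ^ θ := Real.one_le_rpow h1 hθ.le
    have h3 := K_le_norm inc ht.le (astar θ hθ)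
    nlinarith
  · obtain ⟨N, hN1, hN2⟩ := exists_nat_pow_near_of_lt_one ht h1.le (y := (2⁻¹ : ℝ)) (by norm_num) (by norm_num)
    have hK := K_le inc ht.le (astar θ hθ) (cut θ (N + 1))
    have htθ : q ^ (N + 1) ≤ t ^ θ := by
      rw [hq, q_pow]
      exact Real.rpow_le_rpow (by positivity) hN1.le hθ.le
    have e1 : ‖astar θ hθ - inc (cut θ (N + 1))‖ ≤ q ^ (N + 1) * (1 - q)⁻¹ := by
      have hc : ∀ n, ‖(astar θ hθ - inc (cut θ (N + 1))) n‖ = if n < N + 1 then 0 else q ^ n := by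
        intro n
        have : (astar θ hθ - inc (cut θ (N + 1))) n = ((if n < N + 1 then 0 else q ^ n : ℝ) : ℂ) := by
          have e : (astar θ hθ - inc (cut θ (N + 1))) n = astar θ hθ n - inc (cut θ (N + 1)) n := by
            simp
          rw [e, inc_apply]
          simp only [astar, cut, mk_apply]
          split_ifs with h
          · rw [mul_pow]
            push_cast
            rw [← mul_assoc, ← mul_pow]
            norm_num
          · simp [hq]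
        rw [this, Complex.norm_real]
        split_ifs with h
        · simp
        · rw [Real.norm_of_nonneg (by positivity)]
      rw [L1_norm]
      have hs := L1_summable (astar θ hθ - inc (cut θ (N + 1)))
      rw [← hs.sum_add_tsum_nat_add (N + 1)]
      have z1 : ∑ i ∈ Finset.range (N + 1), ‖(astar θ hθ - inc (cut θ (N + 1))) i‖ = 0 := by
        apply Finset.sum_eq_zero
        intro i hi
        rw [hc, if_pos (Finset.mem_range.1 hi)]
      have z2 : ∀ i, ‖(astar θ hθ - inc (cut θ (N + 1))) (i + (N + 1))‖ = q ^ i * q ^ (N + 1) := by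
        intro i
        rw [hc, if_neg (by omega), pow_add]
      rw [z1, zero_add]
      simp_rw [z2]
      rw [tsum_mul_right, tsum_geometric_of_lt_one hq0.le hq1, mul_comm]
    have e2 : ‖cut θ (N + 1)‖ ≤ (2 * q) ^ (N + 1) / (2 * q - 1) := by
      refine (mk_norm _ (cut_summable θ (N + 1))).le.trans ?_
      rw [tsum_eq_sum (s := Finset.range (N + 1)) (fun n hn => by
        rw [if_neg (by simpa using hn)]; simp)]
      have : ∀ n ∈ Finset.range (N + 1), ‖(((if n < N + 1 then (2 * rho θ ^ 2) ^ n else 0 : ℝ)) : ℂ)‖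
          = (2 * q) ^ n := by
        intro n hn
        rw [if_pos (Finset.mem_range.1 hn), Complex.norm_real, Real.norm_of_nonneg (by positivity)]
      rw [Finset.sum_congr rfl this, geom_sum_eq (by linarith)]
      apply div_le_div_of_nonneg_right _ (by linarith)
      linarith
    have e3 : t * ‖cut θ (N + 1)‖ ≤ 2 / (2 * q - 1) * q ^ (N + 1) := by
      have h2 : t * (2 : ℝ) ^ (N + 1) ≤ 2 := by
        calc t * (2 : ℝ) ^ (N + 1) ≤ (2⁻¹ : ℝ) ^ N * 2 ^ (N + 1) :=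
              mul_le_mul_of_nonneg_right hN2 (by positivity)
          _ = ((2⁻¹ : ℝ) * 2) ^ N * 2 := by rw [mul_pow, pow_succ]; ring
          _ = 2 := by norm_num
      calc t * ‖cut θ (N + 1)‖ ≤ t * ((2 * q) ^ (N + 1) / (2 * q - 1)) :=
            mul_le_mul_of_nonneg_left e2 ht.le
        _ = (t * (2 : ℝ) ^ (N + 1)) * (q ^ (N + 1) / (2 * q - 1)) := by rw [mul_pow]; ring
        _ ≤ 2 * (q ^ (N + 1) / (2 * q - 1)) :=
            mul_le_mul_of_nonneg_right h2 (div_nonneg (by positivity) (by linarith))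
        _ = _ := by ring
    calc K inc t (astar θ hθ) ≤ q ^ (N + 1) * (1 - q)⁻¹ + 2 / (2 * q - 1) * q ^ (N + 1) := by linarith
      _ = ((1 - q)⁻¹ + 2 / (2 * q - 1)) * q ^ (N + 1) := by ring
      _ ≤ ((1 - q)⁻¹ + 2 / (2 * q - 1)) * t ^ θ := mul_le_mul_of_nonneg_left htθ (by positivity)
      _ ≤ _ := by
        have : 0 ≤ ‖astar θ hθ‖ * t ^ θ := by positivity
        linarith

lemma K_smul {E0 E1 : Type*} [NormedAddCommGroup E0] [NormedSpace ℂ E0]
    [NormedAddCommGroup E1] [NormedSpace ℂ E1] (ι : E1 →L[ℂ] E0) {t c : ℝ} (ht : 0 ≤ t) (hc : 0 < c)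
    (a : E0) : K ι t ((c : ℂ) • a) ≤ c * K ι t a := by
  rw [← div_le_iff₀' hc]
  refine le_ciInf fun x => ?_
  rw [div_le_iff₀' hc]
  have h := K_le ι ht ((c : ℂ) • a) ((c : ℂ) • x)
  rw [map_smul, ← smul_sub, norm_smul, norm_smul, Complex.norm_real, Real.norm_of_nonneg hc.le] at h
  linarith

lemma K_lower (b : L1) (n : ℕ) : ‖b n‖ ≤ K inc ((2⁻¹ : ℝ) ^ n) b := by
  refine le_ciInf fun x => ?_
  have h1 : ‖(b - inc x) n‖ ≤ ‖b - inc x‖ := lp.norm_apply_le_norm (by norm_num) _ n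
  have h2 : ‖x n‖ ≤ ‖x‖ := lp.norm_apply_le_norm (by norm_num) _ n
  have h3 : ‖b n‖ ≤ ‖(b - inc x) n‖ + ‖inc x n‖ := by
    have : b n = (b - inc x) n + inc x n := by simp
    calc ‖b n‖ = ‖(b - inc x) n + inc x n‖ := by rw [← this]
      _ ≤ _ := norm_add_le _ _
  rw [inc_norm_apply] at h3
  have h4 : (2⁻¹ : ℝ) ^ n * ‖x n‖ ≤ (2⁻¹ : ℝ) ^ n * ‖x‖ := mul_le_mul_of_nonneg_left h2 (by positivity)
  linarith

lemma knorm_top {E0 E1 : Type*} [NormedAddCommGroup E0] [NormedSpace ℂ E0]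
    [NormedAddCommGroup E1] [NormedSpace ℂ E1] (ι : E1 →L[ℂ] E0) (a : E0) :
    knorm ι θ ∞ a = ⨆ t : Ioi (0 : ℝ), ENNReal.ofReal ((t : ℝ) ^ (-θ) * K ι t a) := by
  unfold knorm; rw [if_pos rfl]

theorem neg_part (hθ : 0 < θ) (hθ1 : θ < 1) :
    ∃ ι : L1 →L[ℂ] L1, Function.Injective ι ∧ ∃ (U U1 : L1 → L1), HypH ι ι U U1 ∧ Continuous U1 ∧
      ∃ a : L1, knorm ι θ ∞ a < ∞ ∧ ¬ ContAt ι ι U θ ∞ a := by
  have hr := rho_pos θ
  have hr1 := rho_lt_one θ hθ
  set s0 := ‖astar θ hθ‖ with hs0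
  have hs0pos : 0 < s0 := by
    have h := lp.norm_apply_le_norm (p := 1) (by norm_num) (astar θ hθ) 0
    have h1 : ‖astar θ hθ 0‖ = 1 := by simp [astar]
    rw [h1] at h
    linarith
  obtain ⟨C, hC, hKC⟩ := K_astar θ hθ hθ1
  have hbound : ∀ (c : ℝ), 0 < c → knorm inc θ ∞ ((c : ℂ) • astar θ hθ) ≤ ENNReal.ofReal (c * C) := by
    intro c hc
    rw [knorm_top]
    refine iSup_le fun t => ENNReal.ofReal_le_ofReal ?_
    have ht : (0 : ℝ) < t := t.2
    have h1 := K_smul inc ht.le hc (astar θ hθ)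
    have h2 := hKC t ht
    have h3 : (t : ℝ) ^ (-θ) * (t : ℝ) ^ θ = 1 := by
      rw [← Real.rpow_add ht]; simp
    calc (t : ℝ) ^ (-θ) * K inc t ((c : ℂ) • astar θ hθ) ≤ (t : ℝ) ^ (-θ) * (c * (C * (t : ℝ) ^ θ)) := by
          apply mul_le_mul_of_nonneg_left _ (by positivity)
          exact h1.trans (mul_le_mul_of_nonneg_left h2 hc.le)
      _ = c * C * ((t : ℝ) ^ (-θ) * (t : ℝ) ^ θ) := by ring
      _ = c * C := by rw [h3, mul_one]
  refine ⟨inc, inc_inj, UU θ s0, UU1 θ s0, ⟨UU1_comm θ s0, 1 + (1 - rho θ)⁻¹, 1,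
    UU_lip θ hθ s0, UU1_bound θ s0⟩, UU1_cont θ s0, astar θ hθ, ?_, ?_⟩
  · have := hbound 1 one_pos
    simp only [Complex.ofReal_one, one_smul] at this
    exact lt_of_le_of_lt this ENNReal.ofReal_lt_top
  · intro hcont
    obtain ⟨δ, hδ, h⟩ := hcont 1 one_pos
    obtain ⟨r, hr0, hrδ⟩ := ENNReal.lt_iff_exists_real_btwn.1 hδ
    have hrpos : 0 < r := by
      by_contra hcon
      have := hrδ.1
      rw [ENNReal.ofReal_of_nonpos (not_lt.1 hcon)] at this
      exact lt_irrefl _ this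
    set c : ℝ := r / C with hc
    have hcpos : 0 < c := div_pos hrpos hC
    have hcC : c * C = r := by rw [hc]; field_simp
    have h1 : knorm inc θ ∞ (((1 + c : ℝ) : ℂ) • astar θ hθ) < ∞ :=
      lt_of_le_of_lt (hbound (1 + c) (by positivity)) ENNReal.ofReal_lt_top
    have hsub : ((1 + c : ℝ) : ℂ) • astar θ hθ - astar θ hθ = (c : ℂ) • astar θ hθ := by
      push_cast
      rw [add_smul, one_smul, add_sub_cancel_left]
    have h2 : knorm inc θ ∞ (((1 + c : ℝ) : ℂ) • astar θ hθ - astar θ hθ) < δ := by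
      rw [hsub]
      refine lt_of_le_of_lt (hbound c hcpos) ?_
      rw [hcC]
      exact hrδ.2
    have h3 := h _ h1 h2
    -- U a* = 0
    have hU0 : UU θ s0 (astar θ hθ) = 0 := by
      ext n
      simp only [UU, mk_apply, uc, ← hs0, psi_self]
      simp
    rw [hU0, sub_zero] at h3
    -- choose n large
    obtain ⟨n, hn⟩ : ∃ n : ℕ, rho θ ^ n < c * s0 :=
      exists_pow_lt_of_lt_one (by positivity) hr1
    have hcoord : ‖UU θ s0 (((1 + c : ℝ) : ℂ) • astar θ hθ) n‖ = (rho θ ^ 2) ^ n := by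
      have hnorm : ‖((1 + c : ℝ) : ℂ) • astar θ hθ‖ = (1 + c) * s0 := by
        rw [norm_smul, Complex.norm_real, Real.norm_of_nonneg (by positivity)]
      have hco : ‖(((1 + c : ℝ) : ℂ) • astar θ hθ) n‖ = (1 + c) * (rho θ ^ 2) ^ n := by
        have : (((1 + c : ℝ) : ℂ) • astar θ hθ) n = (((1 + c) * (rho θ ^ 2) ^ n : ℝ) : ℂ) := by
          simp [astar]
        rw [this, Complex.norm_real, Real.norm_of_nonneg (by positivity)]
      simp only [UU, mk_apply]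
      rw [Complex.norm_real, Real.norm_of_nonneg (uc_nonneg θ s0 _ n)]
      unfold uc
      rw [hnorm, hco]
      have hq : 0 < (rho θ ^ 2) ^ n := by positivity
      rw [min_eq_right (by nlinarith)]
      have : psi θ s0 n ((1 + c) * s0) = 1 := by
        unfold psi
        apply min_eq_left
        have e : (1 + c) * s0 - s0 = c * s0 := by ring
        rw [e, abs_of_pos (by positivity), inv_mul_eq_div, le_div_iff₀ (by positivity)]
        linarith
      rw [this, mul_one]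
    have h4 := K_lower (UU θ s0 (((1 + c : ℝ) : ℂ) • astar θ hθ)) n
    rw [hcoord, q_pow] at h4
    have htn : (0 : ℝ) < (2⁻¹ : ℝ) ^ n := by positivity
    have h5 : ENNReal.ofReal 1 ≤ knorm inc θ ∞ (UU θ s0 (((1 + c : ℝ) : ℂ) • astar θ hθ)) := by
      rw [knorm_top]
      refine le_trans (ENNReal.ofReal_le_ofReal ?_) (le_iSup (fun t : Ioi (0 : ℝ) =>
        ENNReal.ofReal ((t : ℝ) ^ (-θ) * K inc t (UU θ s0 (((1 + c : ℝ) : ℂ) • astar θ hθ))))
        ⟨(2⁻¹ : ℝ) ^ n, htn⟩)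
      have h6 : ((2⁻¹ : ℝ) ^ n) ^ (-θ) * ((2⁻¹ : ℝ) ^ n) ^ θ = 1 := by
        rw [← Real.rpow_add htn]; simp
      calc (1 : ℝ) = ((2⁻¹ : ℝ) ^ n) ^ (-θ) * ((2⁻¹ : ℝ) ^ n) ^ θ := h6.symm
        _ ≤ _ := mul_le_mul_of_nonneg_left h4 (by positivity)
    rw [ENNReal.ofReal_one] at h5
    exact absurd h3 (not_lt.2 h5)

end counter

end Pool.Agent.H7.KM
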