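import Mathlib

set_option autoImplicit false

open MeasureTheory Set Filter Topology
open scoped ENNReal NNReal

namespace Pool.Agent.H7.KM

/-- The K-functional of `a` at `t` for the couple `E₁ ⊂ E₀` (the inclusion is `ι`):
the infimum of `‖a₀‖ + t ‖a₁‖` over the decompositions `a = a₀ + a₁`, `a₁ ∈ E₁`. -/
noncomputable def K {E0 E1 : Type*} [NormedAddCommGroup E0] [NormedSpace ℂ E0]
    [NormedAddCommGroup E1] [NormedSpace ℂ E1] (ι : E1 →L[ℂ] E0) (t : ℝ) (a : E0) : ℝ :=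
  ⨅ x : E1, (‖a - ι x‖ + t * ‖x‖)

/-- The norm of the K-method space: the `L^p((0,∞), dt/t)` norm of `t ↦ t^{-θ} K(t,a)`, and the
supremum over `t > 0` when `p = ∞`; the space is the set of `a` where this is finite. -/
noncomputable def knorm {E0 E1 : Type*} [NormedAddCommGroup E0] [NormedSpace ℂ E0]
    [NormedAddCommGroup E1] [NormedSpace ℂ E1] (ι : E1 →L[ℂ] E0) (θ : ℝ) (p : ℝ≥0∞) (a : E0) :
    ℝ≥0∞ :=
  if p = ∞ then ⨆ t : Ioi (0 : ℝ), ENNReal.ofReal ((t : ℝ) ^ (-θ) * K ι t a)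
  else (∫⁻ t in Ioi (0 : ℝ), ENNReal.ofReal ((t ^ (-θ) * K ι t a) ^ p.toReal / t)) ^ (1 / p.toReal)

/-- Hypothesis (H): `U` is Lipschitz from `A₀` to `B₀` and maps `A₁` into `B₁` (its restriction
is `U₁`) with `‖U a‖ ≤ M₁ ‖a‖` in the norms of `B₁` and `A₁`. -/
def HypH {A0 A1 B0 B1 : Type*} [NormedAddCommGroup A0] [NormedSpace ℂ A0]
    [NormedAddCommGroup A1] [NormedSpace ℂ A1] [NormedAddCommGroup B0] [NormedSpace ℂ B0]
    [NormedAddCommGroup B1] [NormedSpace ℂ B1] (ιA : A1 →L[ℂ] A0) (ιB : B1 →L[ℂ] B0)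
    (U : A0 → B0) (U1 : A1 → B1) : Prop :=
  (∀ a : A1, ιB (U1 a) = U (ιA a)) ∧
    ∃ M0 M1 : ℝ, (∀ a b : A0, ‖U a - U b‖ ≤ M0 * ‖a - b‖) ∧ ∀ a : A1, ‖U1 a‖ ≤ M1 * ‖a‖

/-- `U` is continuous at the point `a` as a map between the two K-method spaces. -/
def ContAt {A0 A1 B0 B1 : Type*} [NormedAddCommGroup A0] [NormedSpace ℂ A0]
    [NormedAddCommGroup A1] [NormedSpace ℂ A1] [NormedAddCommGroup B0] [NormedSpace ℂ B0]
    [NormedAddCommGroup B1] [NormedSpace ℂ B1] (ιA : A1 →L[ℂ] A0) (ιB : B1 →L[ℂ] B0)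
    (U : A0 → B0) (θ : ℝ) (p : ℝ≥0∞) (a : A0) : Prop :=
  ∀ ε : ℝ≥0∞, 0 < ε → ∃ δ : ℝ≥0∞, 0 < δ ∧ ∀ a' : A0, knorm ιA θ p a' < ∞ →
    knorm ιA θ p (a' - a) < δ → knorm ιB θ p (U a' - U a) < ε

end Pool.Agent.H7.KM
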